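import Pool.Agent.H69.Col4.Limit

/-!
# Monotonicity of the rescaled Turán densities at `r = 4` is incompatible with Turán's conjecture

`turanDensity k r` is the limit `t(k,r)` of `T(n,k,r) / C(n,r)` and
`rescaled k r = (k-1)^(r-1) / r! * t(k,r)`.  Turán's conjecture for triples says
`t(k,3) = 4 / (k-1)^2`, that is `t_*(k,3) = 2/3` for every `k`.  We show `t_*(30,4) ≤ 0.6436 < 2/3` and
`t_*(k,4) ≤ 0.5786` for all large `k`.  So if `t_*(k,3) ≤ t_*(k,4)` for all `k`, then Turán's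
conjecture fails for `k = 30` and for every large `k`, and there even `t(k,3) ≤ 3.4716 / (k-1)^2`.

Construction: many components, each with a copy of the planes of the 6-dimensional affine space over
the field with two elements (every 10 of the 64 points contain a plane); repeated labels are
controlled by the 4-sets that are unions of two pairs with equal component and label and equal colour
(`Pool.Agent.H69.Col4`, see also `MP_465f8a_co.ColouredRepetitions`).
-/

set_option autoImplicit false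

open Finset Filter Topology

namespace Pool.Agent.Results.MP_1e26d1_co.TuranConjectureIncompatible

open Pool.Agent.H688R3.TuranGen (c exists_cov c_le_card tendsto_c exists_limit)
open Pool.Agent.H69.Col4

/-- `E` is a family of `r`-sets and every `k`-set of vertices contains a member of `E`: the
`r`-graph `E` has independence number less than `k`. -/
def Covers {V : Type} (k r : ℕ) (E : Finset (Finset V)) : Prop :=
  (∀ e ∈ E, e.card = r) ∧ ∀ S : Finset V, S.card = k → ∃ e ∈ E, e ⊆ S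

/-- The Turán number `T(n,k,r)`. -/
noncomputable def turanNumber (n k r : ℕ) : ℕ :=
  sInf {m | ∃ E : Finset (Finset (Fin n)), Covers k r E ∧ E.card = m}

/-- The Turán density `t(k,r)`, the limit of `T(n,k,r) / C(n,r)`. -/
noncomputable def turanDensity (k r : ℕ) : ℝ :=
  limUnder atTop fun n : ℕ => (turanNumber n k r : ℝ) / (n.choose r : ℝ)

/-- The rescaled Turán density `t_*(k,r) = (k-1)^(r-1) / r! * t(k,r)`. -/
noncomputable def rescaled (k r : ℕ) : ℝ :=
  ((k : ℝ) - 1) ^ (r - 1) / (r.factorial : ℝ) * turanDensity k r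

theorem turanNumber_eq {n k r : ℕ} (hk : r ≤ k) : (turanNumber n k r : ℝ) = c r k n := by
  obtain ⟨F, hF, hFc⟩ := exists_cov hk n
  have hmem : F.card ∈ {m : ℕ | ∃ F : Finset (Finset (Fin n)), Covers k r F ∧ F.card = m} :=
    ⟨F, hF, rfl⟩
  apply le_antisymm
  · rw [← hFc]
    exact_mod_cast Nat.sInf_le hmem
  · obtain ⟨G, hG, hGc⟩ := Nat.sInf_mem ⟨_, hmem⟩
    have h1 : turanNumber n k r = G.card := hGc.symm
    rw [h1]
    exact c_le_card hG

theorem tendsto_turanNumber {k r : ℕ} (hk : r ≤ k) :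
    Tendsto (fun n : ℕ => (turanNumber n k r : ℝ) / (n.choose r : ℝ)) atTop
      (𝓝 (Pool.Agent.H688R3.TuranGen.t r k)) := by
  refine (tendsto_c r k).congr fun n => ?_
  rw [turanNumber_eq hk]

theorem turanDensity_eq {k r : ℕ} (hk : r ≤ k) :
    turanDensity k r = Pool.Agent.H688R3.TuranGen.t r k :=
  (tendsto_turanNumber hk).limUnder_eq

/-- `t_*(30,4) ≤ 0.6436` -/
theorem rescaled_thirty : rescaled 30 4 ≤ 0.6436 := by
  have htd := main (m := 3) (j := 0) planes_cov planes_card 26 (by norm_num)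
  have h := Pool.Agent.X44.TS.t_le_of_td htd
  have hc : Fintype.card (Pool.Agent.X44.TS.V 6) = 64 := by simp
  rw [hc] at h
  unfold rescaled
  rw [turanDensity_eq (by norm_num)]
  have hb : ((B Planes).card : ℝ) ≤ 249984 := by exact_mod_cast card_B_planes
  have h2 : Pool.Agent.H688R3.TuranGen.t 4 30 ≤ 249984 / (64 ^ 4 * 3 ^ 3) + 3 / ((3 * 64) ^ 2) := by
    refine h.trans ?_
    unfold Pool.Agent.H69.Col4.dens
    have := div_le_div_of_nonneg_right hb (show (0 : ℝ) ≤ (64 : ℝ) ^ 4 * 3 ^ 3 by positivity)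
    push_cast
    rw [pow_zero, mul_one]
    linarith
  have h3 := mul_le_mul_of_nonneg_left h2
    (show (0 : ℝ) ≤ ((30 : ℕ) - 1 : ℝ) ^ (4 - 1) / ((Nat.factorial 4 : ℕ) : ℝ) by norm_num)
  refine h3.trans ?_
  norm_num [Nat.factorial]

/-- `t_*(k,4)` for large `k` -/
theorem rescaled_large : ∀ ε : ℝ, 0 < ε → ∃ K : ℕ, ∀ k : ℕ, K ≤ k →
    rescaled k 4 ≤ 13.8862 / 24 + ε := by
  intro ε hε
  obtain ⟨L, h1, h2, h3⟩ := exists_limit (s := 3) (by norm_num)
  have hLle : ∀ k : ℕ, 4 ≤ k → L ≤ ((k : ℝ) - 1) ^ 3 * Pool.Agent.H688R3.TuranGen.t 4 k := h3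
  have hmain : L ≤ 13.8862 := by
    have h := limit_bound (L := L) (a := 9) (N := 64) (b := 249984) (by norm_num) (by norm_num)
      (fun m j hm hj => by
        refine (le_of_main hLle planes_cov planes_card m j hm hj).trans ?_
        have hc : Fintype.card (Pool.Agent.X44.TS.V 6) = 64 := by simp
        rw [hc]
        refine mul_le_mul_of_nonneg_left ?_ (by positivity)
        unfold Pool.Agent.H69.Col4.dens
        have hb : ((B Planes).card : ℝ) ≤ ((249984 : ℕ) : ℝ) := by exact_mod_cast card_B_planes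
        have hm' : (0 : ℝ) < m := by exact_mod_cast hm
        have := div_le_div_of_nonneg_right hb
          (show (0 : ℝ) ≤ ((64 : ℕ) : ℝ) ^ 4 * (m : ℝ) ^ 3 by positivity)
        linarith) (y := 49 / 2) (by norm_num)
    refine h.trans ?_
    norm_num
  have h4 : ∀ᶠ k : ℕ in atTop,
      ((k : ℝ) - 1) ^ 3 * Pool.Agent.H688R3.TuranGen.t 4 k < 13.8862 + 24 * ε := by
    refine (tendsto_order.1 h2).2 _ ?_
    linarith
  obtain ⟨K, hK⟩ := eventually_atTop.1 (h4.and (eventually_ge_atTop 4))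
  refine ⟨K, fun k hk => ?_⟩
  obtain ⟨h5, h6⟩ := hK k hk
  unfold rescaled
  rw [turanDensity_eq h6]
  have hfac : ((Nat.factorial 4 : ℕ) : ℝ) = 24 := by norm_num [Nat.factorial]
  rw [hfac, show 4 - 1 = 3 from rfl, div_mul_eq_mul_div, div_le_iff₀ (by norm_num)]
  linarith

/-- (1) `t(k,r)` is the limit of `T(n,k,r) / C(n,r)` for all `r ≤ k`.
(2) `t_*(30,4) ≤ 0.6436 < 2/3`.
(3) `t_*(k,4) ≤ 0.5786` for all large `k`.
(4) If `t_*(30,3) ≤ t_*(30,4)` then `t(30,3) < 4 / 29^2`, the value in Turán's conjecture.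
(5) If `t_*(k,r-1) ≤ t_*(k,r)` for all `3 ≤ r ≤ k`, or only for `r = 4`, then
`t(k,3) ≤ 3.4716 / (k-1)^2 < 4 / (k-1)^2` for all large `k`. -/
theorem result :
    (∀ k r : ℕ, r ≤ k →
      Tendsto (fun n : ℕ => (turanNumber n k r : ℝ) / (n.choose r : ℝ)) atTop
        (𝓝 (turanDensity k r))) ∧
    rescaled 30 4 ≤ 0.6436 ∧
    (∃ K : ℕ, ∀ k : ℕ, K ≤ k → rescaled k 4 ≤ 0.5786) ∧
    (rescaled 30 3 ≤ rescaled 30 4 → turanDensity 30 3 < 4 / (29 : ℝ) ^ 2) ∧
    ((∀ k : ℕ, 4 ≤ k → rescaled k 3 ≤ rescaled k 4) →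
      ∃ K : ℕ, ∀ k : ℕ, K ≤ k → turanDensity k 3 ≤ 3.4716 / ((k : ℝ) - 1) ^ 2) ∧
    ((∀ k r : ℕ, 3 ≤ r → r ≤ k → rescaled k (r - 1) ≤ rescaled k r) →
      ∃ K : ℕ, ∀ k : ℕ, K ≤ k → turanDensity k 3 ≤ 3.4716 / ((k : ℝ) - 1) ^ 2) := by
  have hlarge : ∃ K : ℕ, ∀ k : ℕ, K ≤ k → rescaled k 4 ≤ 0.5786 := by
    obtain ⟨K, hK⟩ := rescaled_large (1 / 1000000) (by norm_num)
    refine ⟨K, fun k hk => (hK k hk).trans ?_⟩
    norm_num
  have hmono : (∀ k : ℕ, 4 ≤ k → rescaled k 3 ≤ rescaled k 4) →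
      ∃ K : ℕ, ∀ k : ℕ, K ≤ k → turanDensity k 3 ≤ 3.4716 / ((k : ℝ) - 1) ^ 2 := by
    intro h
    obtain ⟨K, hK⟩ := hlarge
    refine ⟨max K 4, fun k hk => ?_⟩
    have h1 := (h k ((le_max_right _ _).trans hk)).trans (hK k ((le_max_left _ _).trans hk))
    have hk4 : (4 : ℝ) ≤ k := by exact_mod_cast (le_max_right K 4).trans hk
    unfold rescaled at h1
    have hfac : ((Nat.factorial 3 : ℕ) : ℝ) = 6 := by norm_num [Nat.factorial]
    rw [hfac, show 3 - 1 = 2 from rfl, div_mul_eq_mul_div, div_le_iff₀ (by norm_num)] at h1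
    have hpos : (0 : ℝ) < ((k : ℝ) - 1) ^ 2 := by
      have : (0 : ℝ) < (k : ℝ) - 1 := by linarith
      positivity
    rw [le_div_iff₀ hpos, mul_comm]
    linarith
  refine ⟨fun k r hk => ?_, rescaled_thirty, hlarge, fun h => ?_, hmono, fun h => hmono ?_⟩
  · rw [turanDensity_eq hk]
    exact tendsto_turanNumber hk
  · have h1 := h.trans rescaled_thirty
    unfold rescaled at h1
    have hfac : ((Nat.factorial 3 : ℕ) : ℝ) = 6 := by norm_num [Nat.factorial]
    rw [hfac, show 3 - 1 = 2 from rfl, div_mul_eq_mul_div, div_le_iff₀ (by norm_num)] at h1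
    rw [lt_div_iff₀ (by norm_num)]
    norm_num at h1
    linarith
  · intro k hk
    exact h k 4 (by norm_num) hk

end Pool.Agent.Results.MP_1e26d1_co.TuranConjectureIncompatible
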